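import Mathlib
import Pool.Agent.Lib_helper73.INS.CapPack

set_option autoImplicit false

open MeasureTheory Metric Set

namespace Pool.Agent.Results.MP_bdc619_co.CapPackingDensity

/-- Euclidean three-space. -/
abbrev E3 : Type := EuclideanSpace ℝ (Fin 3)

/-- The unit sphere centred at the origin. -/
abbrev S2 : Type := sphere (0 : E3) 1

/-- The spherical area measure on the unit sphere (total mass `4π`, see `Sarea_univ`). -/
noncomputable def Sarea : Measure S2 := (volume : Measure E3).toSphere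

/-- The open spherical cap with centre `u` and angular radius `ρ`. -/
def C (u : S2) (ρ : ℝ) : Set S2 := {x | InnerProductGeometry.angle (u : E3) (x : E3) < ρ}

/-- A finite nonempty subset of the sphere is a `π/6`-cap packing if the open caps of angular
radius `π/6` around its points are pairwise disjoint. -/
def IsCapPacking (U : Finset S2) : Prop :=
  U.Nonempty ∧ ∀ u ∈ U, ∀ v ∈ U, u ≠ v → Disjoint (C u (Real.pi / 6)) (C v (Real.pi / 6))

/-- The density: the total area of the caps of radius `π/6` divided by the area of the union of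
the caps of radius `π/3`. -/
noncomputable def δ (U : Finset S2) : ℝ :=
  (∑ u ∈ U, (Sarea (C u (Real.pi / 6))).toReal) / (Sarea (⋃ u ∈ U, C u (Real.pi / 3))).toReal

/-- The area of the sphere is `4π`. -/
theorem Sarea_univ : Sarea Set.univ = ENNReal.ofReal (4 * Real.pi) := by
  have h := InsCap.toSphere_eq (A := (Set.univ : Set S2)) MeasurableSet.univ
  rw [Sarea, Measure.toSphere_apply_univ, finrank_euclideanSpace_fin,
    EuclideanSpace.volume_ball_fin_three, ENNReal.ofReal_one, one_pow, one_mul]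
  rw [show ((3 : ℕ) : ENNReal) = ENNReal.ofReal 3 by simp, ← ENNReal.ofReal_mul (by norm_num)]
  congr 1
  ring

theorem C_eq (u : S2) (ρ : ℝ) :
    C u ρ = (Subtype.val : S2 → E3) ⁻¹' (Pool.Agent.Kiss47.cap (u : E3) ρ) := by
  ext x
  exact ⟨fun h => ⟨mem_sphere_zero_iff_norm.1 x.2, h⟩, fun h => h.2⟩

theorem Sarea_C (u : S2) (ρ : ℝ) :
    Sarea (C u ρ) = 3 * Pool.Agent.Kiss47.sig (Pool.Agent.Kiss47.cap (u : E3) ρ) := by
  rw [C_eq]
  exact InsCap.toSphere_preimage (Pool.Agent.Kiss47.measurableSet_cap _ _) fun x hx => hx.1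

/-- The area of a cap of angular radius `π/6` is `2π(1 - cos(π/6))`. -/
theorem Sarea_C_pi_div_six (u : S2) :
    Sarea (C u (Real.pi / 6)) = ENNReal.ofReal (2 * Real.pi * (1 - Real.cos (Real.pi / 6))) := by
  have hs3 : Real.sqrt 3 ^ 2 = 3 := Real.sq_sqrt (by norm_num)
  have hs0 : 0 < Real.sqrt 3 := by positivity
  have hs2 : Real.sqrt 3 < 2 := by nlinarith
  rw [Sarea_C, InsCap.sig_cap _ (mem_sphere_zero_iff_norm.1 u.2), InsCap.sig_univ_eq,
    Real.cos_pi_div_six, show (3 : ENNReal) = ENNReal.ofReal 3 by simp,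
    ← ENNReal.ofReal_mul (by linarith), ← ENNReal.ofReal_mul (by norm_num)]
  congr 1
  ring

/-- For every `π/6`-cap packing `U` one has `δ(U) ≤ 6 (1 - √3/2)`, with equality if `U` has twelve
points. -/
theorem result : ∀ U : Finset S2, IsCapPacking U →
    δ U ≤ 6 * (1 - Real.sqrt 3 / 2) ∧ (U.card = 12 → δ U = 6 * (1 - Real.sqrt 3 / 2)) := by
  classical
  intro U ⟨hne, hd⟩
  set T : Finset E3 := U.image Subtype.val with hT
  have hinj : Function.Injective (Subtype.val : S2 → E3) := Subtype.val_injective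
  have hTn : ∀ u ∈ T, ‖u‖ = 1 := by
    intro u hu
    obtain ⟨v, _, rfl⟩ := Finset.mem_image.1 hu
    exact mem_sphere_zero_iff_norm.1 v.2
  have hTd : ∀ u ∈ T, ∀ v ∈ T, u ≠ v → Disjoint (Pool.Agent.Kiss47.cap u (Real.pi / 6))
      (Pool.Agent.Kiss47.cap v (Real.pi / 6)) := by
    intro u hu v hv huv
    obtain ⟨u', hu', rfl⟩ := Finset.mem_image.1 hu
    obtain ⟨v', hv', rfl⟩ := Finset.mem_image.1 hv
    have h := hd u' hu' v' hv' fun h => huv (by rw [h])
    rw [Set.disjoint_left] at h ⊢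
    intro x hx hx'
    exact h (a := ⟨x, mem_sphere_zero_iff_norm.2 hx.1⟩) hx.2 hx'.2
  obtain ⟨h0, h1, h2⟩ := InsCap.main_sig T hTn (hne.image _) hTd
  have hunion : Sarea (⋃ u ∈ U, C u (Real.pi / 3)) =
      3 * Pool.Agent.Kiss47.sig (⋃ u ∈ T, Pool.Agent.Kiss47.cap u (Real.pi / 3)) := by
    have h3 : (⋃ u ∈ U, C u (Real.pi / 3)) = (Subtype.val : S2 → E3) ⁻¹'
        (⋃ u ∈ T, Pool.Agent.Kiss47.cap u (Real.pi / 3)) := by
      ext x
      simp only [Set.mem_iUnion, Set.mem_preimage, hT, Finset.mem_image, C_eq, exists_prop]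
      constructor
      · rintro ⟨u, hu, hx⟩
        exact ⟨u, ⟨u, hu, rfl⟩, hx⟩
      · rintro ⟨_, ⟨u, hu, rfl⟩, hx⟩
        exact ⟨u, hu, hx⟩
    rw [h3]
    refine InsCap.toSphere_preimage (Pool.Agent.Kiss47.measurableSet_union T _) fun x hx => ?_
    simp only [Set.mem_iUnion] at hx
    obtain ⟨u, _, hx⟩ := hx
    exact hx.1
  have hsum : ∑ u ∈ U, (Sarea (C u (Real.pi / 6))).toReal =
      3 * ∑ u ∈ T, (Pool.Agent.Kiss47.sig (Pool.Agent.Kiss47.cap u (Real.pi / 6))).toReal := by
    rw [hT, Finset.sum_image fun x _ y _ h => hinj h, Finset.mul_sum]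
    refine Finset.sum_congr rfl fun u _ => ?_
    rw [Sarea_C, ENNReal.toReal_mul]
    simp
  have hδ : δ U = (∑ u ∈ T,
      (Pool.Agent.Kiss47.sig (Pool.Agent.Kiss47.cap u (Real.pi / 6))).toReal)
      / (Pool.Agent.Kiss47.sig (⋃ u ∈ T, Pool.Agent.Kiss47.cap u (Real.pi / 3))).toReal := by
    rw [δ, hunion, hsum, ENNReal.toReal_mul]
    rw [show (3 : ENNReal).toReal = 3 by simp]
    exact mul_div_mul_left _ _ (by norm_num)
  have hcard : T.card = U.card := Finset.card_image_of_injective _ hinj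
  rw [hδ]
  exact ⟨h1, fun h => h2 (by rw [hcard, h])⟩

end Pool.Agent.Results.MP_bdc619_co.CapPackingDensity
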